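import Pool.Agent.Lib.MP_6d445e_gt.H12.Suc
import Pool.Agent.Lib.MP_6d445e_gt.H38.Seq

/-!
Module PRMIL: Miller forcing preserves good sets.
-/

set_option autoImplicit false

universe u v w

open Cardinal Filter

namespace Pool.Agent.Lib.MP_6d445e_gt.H23

open Pool.Agent.Lib.MP_100a6c_lc
open Pool.Agent.Lib.MP_c5d73d_lc.F (pr)
open Pool.Agent.Lib.MP_e6fef2_lc
open Pool.Agent.Lib.MP_6d445e_gt.H12
open Pool.Agent.Lib.MP_6d445e_gt.H38.SeqAux (ae_disn ae_cut club_countable ae_all_in gc_gen gc_cut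
  gc_le)

section

variable {A C : Type u} [CompleteBooleanAlgebra A] [CompleteBooleanAlgebra C]

/-- `prj` and suprema over arbitrary sorts. -/
theorem prj_sup {f : A → C} (hf : IsCE f) {J : Sort*} (c : J → C) :
    prj f (⨆ j, c j) = ⨆ j, prj f (c j) := by
  rw [iSup, prj_sSup hf]
  apply le_antisymm
  · refine iSup₂_le fun c' hc' => ?_
    obtain ⟨j, rfl⟩ := hc'
    exact le_iSup (fun j => prj f (c j)) j
  · exact iSup_le fun j => le_iSup₂_of_le (c j) ⟨j, rfl⟩ le_rfl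

/-- Abstract fusion for Miller forcing, for the abstract extension. -/
def AmfA (E : A → C) (G : MX A → C) : Prop := ∀ (X : ℕ → Type u)
  [∀ n, Countable (X n)] (nd : ∀ n, X n → List ℕ) (τ : ∀ n, X n → MX A) (gd : ∀ n, X n → A)
  (ed : ∀ n, X n → X (n + 1) → A),
  (∀ n s, gd n s ≤ stm (τ n s) (nd n s)) →
  (∀ n s m, gd n s ≤ ⨆ s' : X (n + 1), ⨆ _ : ∃ l, m ≤ l ∧ nd n s ++ [l] <+: nd (n + 1) s',
    gd (n + 1) s' ⊓ ed n s s' ⊓ (MQ A).le (τ (n + 1) s') (τ n s)) →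
  ∀ (s0 : X 0) (a : A), a ≤ gd 0 s0 → ∃ p : C, prj E p = a ∧
    ∀ᶠ h in ae C, p ∈ h → ∃ ξ : ∀ n, X n, ξ 0 = s0 ∧ ∀ n,
      E (gd n (ξ n)) ∈ h ∧ G (τ n (ξ n)) ∈ h ∧ E (ed n (ξ n) (ξ (n + 1))) ∈ h

theorem amfA (hamf : AmfStatement.{u, u}) (A : Type u) [CompleteBooleanAlgebra A] :
    AmfA (mE A) (mG (A := A)) := by
  intro X _ nd τ gd ed h1 h2 s0 a ha
  obtain ⟨p, P, hp, hae⟩ := hamf A X nd τ gd ed h1 h2 s0 a ha
  refine ⟨p, hp, ?_⟩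
  filter_upwards [hae] with h hh hph
  obtain ⟨ξ, h0, h3⟩ := hh hph
  refine ⟨ξ, h0, fun n => ?_⟩
  obtain ⟨-, h4, h5, h6, -⟩ := h3 n
  exact ⟨h4, h5, h6⟩

variable {E : A → C} {G : MX A → C} {Nd : List ℕ → C} {lq : List ℕ → C → A}

/-- States of the weights. -/
abbrev St3 (A : Type u) [CompleteBooleanAlgebra A] : Type u := List ℕ × MX A × (ℕ → A)

/-- The first values of `x` are decided. -/
def dec (E : A → C) (G : MX A → C) (x : ℕ → C) (n : ℕ) (τ : MX A) : A :=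
  ⨅ i : Fin (n + 1), (fog E G τ (x i) ⊔ fog E G τ (x i)ᶜ)

/-- The weights at the root. -/
def W0 (E : A → C) (G : MX A → C) (lq : List ℕ → C → A) (c : C) (x : ℕ → C) (z : ℕ → A) (k : ℕ)
    (s : St3 A) : A :=
  fog E G s.2.1 (c ⊓ agr E z x k) ⊓ stm s.2.1 s.1 ⊓ itp E (lq s.1) (G s.2.1) x s.2.2

/-- The weights of the step. -/
def W1 (E : A → C) (G : MX A → C) (Nd : List ℕ → C) (lq : List ℕ → C → A) (n m : ℕ)
    (t : List ℕ) (τ : MX A) (x y : ℕ → C) (z : ℕ → A) (D : Set C) (k : ℕ) (s : Stt A C) : A :=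
  (⨆ l : {l : ℕ // m ≤ l}, ⨆ _ : s.2.2.2 ∈ D,
    fog E G s.2.1 (G τ ⊓ agr E z x k ⊓ Nd (t ++ [l.1]) ⊓ s.2.2.2)) ⊓
  dec E G (adn x y k) n s.2.1 ⊓ stm s.2.1 s.1 ⊓ itp E (lq s.1) (G s.2.1) (adn x y k) s.2.2.1

/-- Splitting a condition according to the values of the first `x i`. -/
theorem split_dec (x : ℕ → C) (n : ℕ) (c : C) :
    c ≤ ⨆ σ : Fin (n + 1) → Bool, c ⊓ ⨅ i : Fin (n + 1), (if σ i then x i else (x i)ᶜ) := by
  classical
  apply le_of_ae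
  filter_upwards [ae_iSup (fun σ : Fin (n + 1) → Bool =>
      c ⊓ ⨅ i : Fin (n + 1), (if σ i then x i else (x i)ᶜ)),
    ae_all (fun σ : Fin (n + 1) → Bool =>
      ae_iInf (fun i : Fin (n + 1) => (if σ i then x i else (x i)ᶜ)))] with h h1 h2 hc
  rw [h1]
  refine ⟨fun i => decide (x i ∈ h), ?_⟩
  rw [h.mem_inf, h2]
  refine ⟨hc, fun i => ?_⟩
  by_cases hx : x i ∈ h
  · simp [hx]
  · simp [hx, h.mem_compl]

section facts

variable (hI : ItpStatement.{u}) (H : MExt2 E G Nd lq)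

include hI H

/-- Below a tree which forces agreement with `z` below `k` interpretations agree with `z`. -/
theorem itp_agr (t : List ℕ) (τ : MX A) (x : ℕ → C) (z z' : ℕ → A) (k : ℕ) (d : C)
    (hd : d ≤ agr E z x k) :
    fog E G τ d ⊓ itp E (lq t) (G τ) x z' ≤ agr (fun a : A => a) z z' k := by
  obtain ⟨-, -, -, -, i5⟩ := hI A C E H.ex.ce
  obtain ⟨-, -, -, -, i55, i56, -, -, -⟩ := i5 (lq t) (H.addM t)
  have h1 : G τ ⊓ E (fog E G τ d) ≤ agr E z x k := by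
    refine le_trans ?_ hd
    rw [inf_comm, ← H.ex.fog_iff]
  have h2 := i56 _ x z' z k h1
  rw [i55] at h2
  rw [inf_comm]
  exact h2

/-- A tree which decides `x i` positively. -/
theorem itp_pos (t : List ℕ) (τ : MX A) (x : ℕ → C) (z : ℕ → A) (i : ℕ) :
    fog E G τ (x i) ⊓ itp E (lq t) (G τ) x z ≤ z i := by
  obtain ⟨-, -, -, -, i5⟩ := hI A C E H.ex.ce
  obtain ⟨-, i52, -, -, i55, -, -, -, -⟩ := i5 (lq t) (H.addM t)
  have h1 : G τ ⊓ E (fog E G τ (x i)) ≤ x i := by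
    rw [inf_comm, ← H.ex.fog_iff]
  have h2 : fog E G τ (x i) ⊓ itp E (lq t) (G τ) x z =
      itp E (lq t) (G τ ⊓ E (fog E G τ (x i))) x z := by
    rw [i55, inf_comm]
  rw [h2]
  refine (iInf_le _ (i + 1)).trans ?_
  have h3 : (G τ ⊓ E (fog E G τ (x i))) ⊓ agr E z x (i + 1) ≤ (G τ) ⊓ E (z i) := by
    refine le_inf (inf_le_left.trans inf_le_left) ?_
    have h4 : agr E z x (i + 1) ≤ (E (z i) ⊓ x i) ⊔ ((E (z i))ᶜ ⊓ (x i)ᶜ) :=
      (iInf_le _ i).trans (iInf_le _ (Nat.lt_succ_self i))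
    refine (inf_le_inf h1 h4).trans ?_
    rw [inf_sup_left]
    refine sup_le (inf_le_right.trans inf_le_left) ?_
    have h5 : x i ⊓ ((E (z i))ᶜ ⊓ (x i)ᶜ) = ⊥ := by
      rw [inf_comm (E (z i))ᶜ, ← inf_assoc, inf_compl_eq_bot, bot_inf_eq]
    rw [h5]
    exact bot_le
  refine (i52 _ _ h3).trans ?_
  rw [(H.addM t).lin]
  exact inf_le_right

theorem itp_sl (t : List ℕ) (τ : MX A) (x : ℕ → C) (z : ℕ → A) (r : ℕ → ℕ) (hr : SlOn r ⊤ x) :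
    SlOn r (itp E (lq t) (G τ) x z) z := by
  obtain ⟨-, -, -, -, i5⟩ := hI A C E H.ex.ce
  obtain ⟨-, -, -, -, -, -, -, -, i59⟩ := i5 (lq t) (H.addM t)
  refine i59 (G τ) x z r ?_
  filter_upwards [hr] with h hh _
  exact hh h.mem_top

omit hI in
/-- The supremum of the weights at the root. -/
theorem sup_W0 (c : C) (x : ℕ → C) (z : ℕ → A) (k : ℕ) :
    prj E (c ⊓ agr E z x k) ≤ ⨆ s, W0 E G lq c x z k s := by
  refine (H.dns _ x).trans ?_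
  refine iSup_le fun t => iSup_le fun τ => iSup_le fun z' => ?_
  exact le_iSup (W0 E G lq c x z k) (t, τ, z')

omit hI in
/-- The supremum of the weights of the step. -/
theorem sup_W1 (n m : ℕ) (t : List ℕ) (τ : MX A) (x y : ℕ → C) (z : ℕ → A) (D : Set C)
    (hD : sSup D = ⊤) (k : ℕ) :
    itp E (lq t) (G τ) x z ≤ ⨆ s, W1 E G Nd lq n m t τ x y z D k s := by
  have hE := H.ex.ce
  refine (iInf_le _ k).trans ?_
  rw [H.lq_eq]
  refine (iInf_le _ m).trans ?_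
  refine iSup₂_le fun l hl => ?_
  obtain ⟨c0, hc0⟩ : ∃ c0, c0 = G τ ⊓ agr E z x k ⊓ Nd (t ++ [l]) := ⟨_, rfl⟩
  rw [← hc0]
  have h1 : c0 ≤ ⨆ d : D, ⨆ σ : Fin (n + 1) → Bool, (c0 ⊓ d.1) ⊓ ⨅ i : Fin (n + 1),
      (if σ i then adn x y k i else (adn x y k i)ᶜ) := by
    have h2 : c0 = ⨆ d : D, c0 ⊓ d.1 := by
      rw [← inf_iSup_eq, ← sSup_eq_iSup', hD, inf_top_eq]
    refine h2.le.trans (iSup_mono fun d => ?_)
    exact split_dec (adn x y k) n (c0 ⊓ d.1)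
  refine (prj_mono hE h1).trans ?_
  rw [prj_sup hE]
  refine iSup_le fun d => ?_
  rw [prj_sup hE]
  refine iSup_le fun σ => ?_
  obtain ⟨c2, hc2⟩ : ∃ c2, c2 = (c0 ⊓ d.1) ⊓ ⨅ i : Fin (n + 1),
      (if σ i then adn x y k i else (adn x y k i)ᶜ) := ⟨_, rfl⟩
  rw [← hc2]
  refine (H.dns c2 (adn x y k)).trans ?_
  refine iSup_le fun t' => iSup_le fun τ' => iSup_le fun z' => ?_
  refine le_trans ?_ (le_iSup _ (t', τ', z', d.1))
  refine le_inf (le_inf (le_inf ?_ ?_) ?_) inf_le_right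
  · refine le_iSup_of_le ⟨l, hl⟩ (le_iSup_of_le d.2 ?_)
    refine inf_le_left.trans (inf_le_left.trans (fog_mono hE _ ?_))
    rw [← hc0, hc2]
    exact inf_le_left
  · refine inf_le_left.trans (inf_le_left.trans (le_iInf fun i => ?_))
    have h4 : c2 ≤ (if σ i then adn x y k i else (adn x y k i)ᶜ) := by
      rw [hc2]
      exact inf_le_right.trans (iInf_le _ i)
    by_cases hσ : σ i = true
    · rw [if_pos hσ] at h4
      exact (fog_mono hE _ h4).trans le_sup_left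
    · rw [if_neg hσ] at h4
      exact (fog_mono hE _ h4).trans le_sup_right
  · exact inf_le_left.trans inf_le_right

end facts

/-- Everything `N` has to satisfy. -/
structure NP (E : A → C) (G : MX A → C) (Nd : List ℕ → C) (lq : List ℕ → C → A)
    (N : Set El.{u}) : Prop where
  cM : Countable {τ : MX A // In N τ}
  cz : Countable {z : ℕ → A // In N z}
  cx : Countable {x : ℕ → C // In N x}
  cD : Countable {D : Set C // In N D}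
  cS : Countable {s : Stt A C // In N s}
  seq3 : ∀ (w : ℕ → St3 A → A) (b : ℕ → St3 A → ℕ → A) (z : ℕ → A) (r : ℕ → ℕ), In N w → In N b →
    In N z → (∀ k t, w k t ≤ agr (fun a : A => a) z (b k t) k) →
    (∀ k t, SlOn r (w k t) (b k t)) →
    ∀ Y : ℕ → A, ∀ᶠ g in ae A, gc N Y ∈ g → dis z Y ∈ g → (∀ k, (⨆ t, w k t) ∈ g) →
      ∀ m, ∃ k, m ≤ k ∧ ∃ t, In N t ∧ w k t ∈ g ∧ dis (b k t) Y ∈ g
  seq4 : ∀ (w : ℕ → Stt A C → A) (b : ℕ → Stt A C → ℕ → A) (z : ℕ → A) (r : ℕ → ℕ), In N w →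
    In N b → In N z → (∀ k t, w k t ≤ agr (fun a : A => a) z (b k t) k) →
    (∀ k t, SlOn r (w k t) (b k t)) →
    ∀ Y : ℕ → A, ∀ᶠ g in ae A, gc N Y ∈ g → dis z Y ∈ g → (∀ k, (⨆ t, w k t) ∈ g) →
      ∀ m, ∃ k, m ≤ k ∧ ∃ t, In N t ∧ w k t ∈ g ∧ dis (b k t) Y ∈ g
  w0 : ∀ (c : C) (x : ℕ → C) (z : ℕ → A), In N c → In N x → In N z → In N (W0 E G lq c x z)
  w1 : ∀ (n m : ℕ) (t : List ℕ) (τ : MX A) (x y : ℕ → C) (z : ℕ → A) (D : Set C), In N τ →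
    In N x → In N y → In N z → In N D → In N (W1 E G Nd lq n m t τ x y z D)
  b0 : In N (fun (_ : ℕ) (s : St3 A) => s.2.2)
  b1 : In N (fun (_ : ℕ) (s : Stt A C) => s.2.2.1)
  a1 : ∀ s : St3 A, In N s → In N s.2.1 ∧ In N s.2.2
  a2 : ∀ s : Stt A C, In N s → In N s.2.1 ∧ In N s.2.2.1 ∧ In N s.2.2.2
  ad : ∀ (k : ℕ) (x y : ℕ → C), In N x → In N y → In N (adn x y k)
  un : In N (Set.univ : Set C)

theorem np (hseq : SeqStatement.{u}) (E : A → C) (G : MX A → C) (Nd : List ℕ → C)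
    (lq : List ℕ → C → A) : ∀ᶠ N in club, NP E G Nd lq N := by
  obtain ⟨-, -, -, hconst, -, hf1, hf2, -⟩ := all_club.{u}
  have e1 := club_countable (MX A)
  have e2 := club_countable (ℕ → A)
  have e3 := club_countable (ℕ → C)
  have e4 := club_countable (Set C)
  have e4' := club_countable (Stt A C)
  have e5 := hseq A (St3 A)
  have e6 := hseq A (Stt A C)
  have e7 := hf1 (C × (ℕ → C) × (ℕ → A)) _ (fun p => W0 E G lq p.1 p.2.1 p.2.2)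
  have e8 := hf2 (ℕ → C) (ℕ → A) _ Prod.mk
  have e9 := hf2 C ((ℕ → C) × (ℕ → A)) _ Prod.mk
  have e10 : ∀ᶠ N in club, ∀ j : ℕ × ℕ × List ℕ, ∀ p : (MX A × (ℕ → C) × (ℕ → C) × (ℕ → A) × Set C),
      In N p → In N (W1 E G Nd lq j.1 j.2.1 j.2.2 p.1 p.2.1 p.2.2.1 p.2.2.2.1 p.2.2.2.2) :=
    club_all fun j => hf1 (MX A × (ℕ → C) × (ℕ → C) × (ℕ → A) × Set C) _
      (fun p => W1 E G Nd lq j.1 j.2.1 j.2.2 p.1 p.2.1 p.2.2.1 p.2.2.2.1 p.2.2.2.2)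
  have e11 := hf2 (ℕ → A) (Set C) _ Prod.mk
  have e12 := hf2 (ℕ → C) ((ℕ → A) × Set C) _ Prod.mk
  have e13 := hf2 (ℕ → C) ((ℕ → C) × (ℕ → A) × Set C) _ Prod.mk
  have e14 := hf2 (MX A) ((ℕ → C) × (ℕ → C) × (ℕ → A) × Set C) _ Prod.mk
  have e15 := hconst _ (fun (_ : ℕ) (s : St3 A) => s.2.2)
  have e16 := hconst _ (fun (_ : ℕ) (s : Stt A C) => s.2.2.1)
  have e17 := hf1 (St3 A) (MX A) (fun s => s.2.1)
  have e18 := hf1 (St3 A) (ℕ → A) (fun s => s.2.2)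
  have e19 := hf1 (Stt A C) (MX A) (fun s => s.2.1)
  have e20 := hf1 (Stt A C) (ℕ → A) (fun s => s.2.2.1)
  have e21 := hf1 (Stt A C) C (fun s => s.2.2.2)
  have e22 : ∀ᶠ N in club, ∀ (k : ℕ) (x y : ℕ → C), In N x → In N y → In N (adn x y k) :=
    club_all fun k => hf2 (ℕ → C) (ℕ → C) (ℕ → C) (fun x y => adn x y k)
  have e23 := hconst _ (Set.univ : Set C)
  filter_upwards [e1, e2, e3, e4, e4', e5, e6, e7, e8, e9, e10, e11, e12, e13, e14, e15, e16, e17,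
    e18, e19, e20, e21, e22, e23] with N e1 e2 e3 e4 e4' e5 e6 e7 e8 e9 e10 e11 e12 e13 e14 e15
    e16 e17 e18 e19 e20 e21 e22 e23
  refine ⟨e1, e2, e3, e4, e4', e5, e6, ?_, ?_, e15, e16, fun s hs => ⟨e17 s hs, e18 s hs⟩,
    fun s hs => ⟨e19 s hs, e20 s hs, e21 s hs⟩, e22, e23⟩
  · intro c x z hc hx hz
    exact e7 _ (e9 _ _ hc (e8 _ _ hx hz))
  · intro n m t τ x y z D hτ hx hy hz hD
    exact e10 (n, m, t) _ (e14 _ _ hτ (e13 _ _ hx (e12 _ _ hy (e11 _ _ hz hD))))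

/-- The states. -/
abbrev Sta (A C : Type u) [CompleteBooleanAlgebra A] [CompleteBooleanAlgebra C]
    (N : Set El.{u}) : Type u :=
  List ℕ × {τ : MX A // In N τ} × {x : ℕ → C // In N x ∧ Sl x} × {z : ℕ → A // In N z}

/-- The value of a state. -/
def gdv (E : A → C) (G : MX A → C) (lq : List ℕ → C → A) (N : Set El.{u}) (Y : ℕ → A) (c : C)
    (t : List ℕ) (τ : MX A) (x : ℕ → C) (z : ℕ → A) : A :=
  gc N Y ⊓ fog E G τ c ⊓ stm τ t ⊓ itp E (lq t) (G τ) x z ⊓ dis z Y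

theorem mem_gdv {N : Set El.{u}} {Y : ℕ → A} {c : C} {t : List ℕ} {τ : MX A} {x : ℕ → C}
    {z : ℕ → A} (g : Ult A) : gdv E G lq N Y c t τ x z ∈ g ↔ gc N Y ∈ g ∧ fog E G τ c ∈ g ∧
      stm τ t ∈ g ∧ itp E (lq t) (G τ) x z ∈ g ∧ dis z Y ∈ g := by
  unfold gdv
  rw [g.mem_inf, g.mem_inf, g.mem_inf, g.mem_inf]
  tauto

/-- The value of an edge. -/
def edv (E : A → C) (G : MX A → C) (N : Set El.{u}) (n : ℕ) (x y : ℕ → C) (D : Set C)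
    (τ' : MX A) (x' : ℕ → C) : A :=
  (⨆ _ : ∃ k, x' = adn x y k, ⊤) ⊓ (⨆ d : {d : C // d ∈ D ∧ In N d}, fog E G τ' d.1) ⊓
    dec E G x' n τ'

section main

variable (hS : SlaStatement.{u}) (hI : ItpStatement.{u}) (H : MExt2 E G Nd lq)

include hS hI H

omit hS in
/-- The root states. -/
theorem root {N : Set El.{u}} (hN : NP E G Nd lq N) (Y : ℕ → A) (c : C) (x : ℕ → C) (z : ℕ → A)
    (hc : In N c) (hx : In N x) (hsx : Sl x) (hz : In N z) :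
    gc N Y ⊓ itp E (prj E) c x z ⊓ dis z Y ≤
      ⨆ s : List ℕ × {τ : MX A // In N τ} × {z : ℕ → A // In N z},
        gdv E G lq N Y c s.1 s.2.1.1 x s.2.2.1 := by
  obtain ⟨r, hr⟩ := hsx
  apply le_of_ae
  filter_upwards [hN.seq3 (W0 E G lq c x z) (fun _ s => s.2.2) z r (hN.w0 c x z hc hx hz) hN.b0 hz
    (fun k s => by
      refine le_trans ?_ (itp_agr hI H s.1 s.2.1 x z s.2.2 k (c ⊓ agr E z x k) inf_le_right)
      exact le_inf (inf_le_left.trans inf_le_left) inf_le_right)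
    (fun k s => by
      have h1 := itp_sl hI H s.1 s.2.1 x s.2.2 r hr
      filter_upwards [h1] with g hg hgw
      exact hg (g.mono inf_le_right hgw)) Y] with g hg hgg
  rw [g.mem_inf, g.mem_inf] at hgg
  obtain ⟨⟨h1, h2⟩, h3⟩ := hgg
  obtain ⟨k, -, ⟨t, τ, z'⟩, h4, h5, h6⟩ := hg h1 h3 (fun k =>
    g.mono ((iInf_le _ k).trans (sup_W0 H c x z k)) h2) 0
  obtain ⟨h7, h8⟩ := hN.a1 _ h4
  have h9 : gdv E G lq N Y c t τ x z' ∈ g := by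
    rw [mem_gdv]
    have h10 := g.mem_inf.1 h5
    have h11 := g.mem_inf.1 h10.1
    exact ⟨h1, g.mono (fog_mono H.ex.ce _ inf_le_left) h11.1, h11.2, h10.2, h6⟩
  exact g.mono (le_iSup (fun s : List ℕ × {τ : MX A // In N τ} × {z : ℕ → A // In N z} =>
    gdv E G lq N Y c s.1 s.2.1.1 x s.2.2.1) (t, ⟨τ, h7⟩, ⟨z', h8⟩)) h9

/-- The step. -/
theorem step {N : Set El.{u}} (hN : NP E G Nd lq N) (Y : ℕ → A) (c : C) (n m : ℕ)
    (y : ℕ → C) (hy : In N y) (hsy : Sl y) (D : Set C) (hD : In N D) (hDt : sSup D = ⊤)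
    (s : Sta A C N) :
    gdv E G lq N Y c s.1 s.2.1.1 s.2.2.1.1 s.2.2.2.1 ≤
      ⨆ s' : Sta A C N, ⨆ _ : ∃ l, m ≤ l ∧ s.1 ++ [l] <+: s'.1,
        gdv E G lq N Y c s'.1 s'.2.1.1 s'.2.2.1.1 s'.2.2.2.1 ⊓
        edv E G N n s.2.2.1.1 y D s'.2.1.1 s'.2.2.1.1 ⊓ (MQ A).le s'.2.1.1 s.2.1.1 := by
  obtain ⟨t, ⟨τ, hτ⟩, ⟨x, hx, hsx⟩, ⟨z, hz⟩⟩ := s
  have hE := H.ex.ce
  obtain ⟨r, hr⟩ := hsx
  obtain ⟨r', hr'⟩ := hsy
  obtain ⟨_, _, s3, s4, _, _⟩ := hS C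
  have hsl : ∀ k, SlOn (fun p => r p + r' p) ⊤ (adn x y k) := by
    intro k
    refine s4 _ _ _ _ ?_ (s3 r r' ⊤ x y hr hr')
    intro j
    rw [top_inf_eq]
    exact sup_le_sup_left (iSup_le fun _ => le_rfl) _
  have hagr : ∀ k, agr E z (adn x y k) k = agr E z x k := by
    intro k
    unfold agr
    refine iInf_congr fun j => iInf_congr fun hj => ?_
    rw [adn_lt x y hj]
  have b1 := hN.seq4 (W1 E G Nd lq n m t τ x y z D) (fun _ s => s.2.2.1) z _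
    (hN.w1 n m t τ x y z D hτ hx hy hz hD) hN.b1 hz
    (fun k s => by
      refine le_trans (le_inf (inf_le_left.trans (inf_le_left.trans inf_le_left)) inf_le_right) ?_
      rw [iSup_inf_eq]
      refine iSup_le fun l => ?_
      rw [iSup_inf_eq]
      refine iSup_le fun _ => ?_
      refine itp_agr hI H s.1 s.2.1 (adn x y k) z s.2.2.1 k _ ?_
      rw [hagr]
      exact inf_le_left.trans (inf_le_left.trans inf_le_right))
    (fun k s => by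
      have h1 := itp_sl hI H s.1 s.2.1 (adn x y k) s.2.2.1 _ (hsl k)
      filter_upwards [h1] with g hg hgw
      exact hg (g.mono inf_le_right hgw)) Y
  have b2 : ∀ᶠ g in ae A, ∀ s : {s : Stt A C // In N s}, ∀ k : ℕ,
      (⨆ l : {l : ℕ // m ≤ l}, ⨆ _ : s.1.2.2.2 ∈ D,
        fog E G s.1.2.1 (G τ ⊓ agr E z x k ⊓ Nd (t ++ [l.1]) ⊓ s.1.2.2.2)) ∈ g ↔
      ∃ l : {l : ℕ // m ≤ l}, (⨆ _ : s.1.2.2.2 ∈ D,
        fog E G s.1.2.1 (G τ ⊓ agr E z x k ⊓ Nd (t ++ [l.1]) ⊓ s.1.2.2.2)) ∈ g := by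
    have := hN.cS
    exact ae_all fun s => ae_all fun k => ae_iSup _
  apply le_of_ae
  filter_upwards [b1, b2] with g b1 b2 hg
  rw [mem_gdv] at hg
  obtain ⟨g1, g2, g3, g4, g5⟩ := hg
  obtain ⟨k, -, ⟨t', τ', z', d⟩, h4, h5, h6⟩ := b1 g1 g5 (fun k =>
    g.mono (sup_W1 H n m t τ x y z D hDt k) g4) 0
  obtain ⟨h7, h8, h9⟩ := hN.a2 _ h4
  have w1 := g.mem_inf.1 h5
  have w2 := g.mem_inf.1 w1.1
  have w3 := g.mem_inf.1 w2.1
  obtain ⟨⟨l, hl⟩, w4⟩ := (b2 ⟨(t', τ', z', d), h4⟩ k).1 w3.1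
  obtain ⟨hdD, w5⟩ := mem_iSup_prop.1 w4
  have w5' : fog E G τ' (G τ ⊓ agr E z x k ⊓ Nd (t ++ [l]) ⊓ d) ∈ g := w5
  have hit : itp E (lq t') (G τ') (adn x y k) z' ∈ g := w1.2
  -- the node
  have hnode : t ++ [l] <+: t' := by
    obtain ⟨a, ha⟩ : ∃ a, a = fog E G τ' (Nd (t ++ [l])) := ⟨_, rfl⟩
    have hag : a ∈ g := by
      rw [ha]
      exact g.mono (fog_mono hE _ (inf_le_left.trans inf_le_right)) w5'
    have h10 : G τ' ⊓ E a ≤ Nd (t ++ [l]) := by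
      rw [inf_comm, ← H.ex.fog_iff, ha]
    refine H.lq3 t' (t ++ [l]) _ h10 ?_
    rw [(H.addM t').lin]
    intro h11
    obtain ⟨-, -, -, -, i5⟩ := hI A C E hE
    obtain ⟨-, -, i53, -⟩ := i5 (lq t') (H.addM t')
    have h12 : lq t' (G τ') ⊓ a ∈ g := g.mem_inf.2 ⟨g.mono (i53 _ _ _) hit, hag⟩
    rw [h11] at h12
    exact g.not_bot h12
  have hle : (MQ A).le τ' τ ∈ g := by
    have h10 : fog E G τ' (G τ ⊓ agr E z x k ⊓ Nd (t ++ [l]) ⊓ d) ≤ (MQ A).le τ' τ := by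
      rw [← H.ex.leG τ' τ]
      exact fog_mono hE _ (inf_le_left.trans (inf_le_left.trans inf_le_left))
    exact g.mono h10 w5'
  have hfc : fog E G τ' c ∈ g := by
    have h10 : (MQ A).le τ' τ ⊓ fog E G τ c ≤ fog E G τ' c := by
      rw [H.ex.fog_iff, f_inf hE]
      have h11 : E ((MQ A).le τ' τ) ⊓ G τ' ≤ G τ := H.ex.le_of_le τ' τ
      have h12 : E (fog E G τ c) ⊓ G τ ≤ c := by rw [← H.ex.fog_iff]
      refine le_trans (le_inf (inf_le_left.trans inf_le_right) ?_) h12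
      exact (inf_le_inf_right _ inf_le_left).trans h11
    exact g.mono h10 (g.mem_inf.2 ⟨hle, g2⟩)
  let s' : Sta A C N := (t', ⟨τ', h7⟩, ⟨adn x y k, hN.ad k x y hx hy, _, hsl k⟩, ⟨z', h8⟩)
  have hs' : gdv E G lq N Y c s'.1 s'.2.1.1 s'.2.2.1.1 s'.2.2.2.1 ⊓
      edv E G N n x y D s'.2.1.1 s'.2.2.1.1 ⊓ (MQ A).le s'.2.1.1 τ ∈ g := by
    refine g.mem_inf.2 ⟨g.mem_inf.2 ⟨?_, ?_⟩, hle⟩
    · rw [mem_gdv]
      exact ⟨g1, hfc, w2.2, hit, h6⟩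
    · refine g.mem_inf.2 ⟨g.mem_inf.2 ⟨?_, ?_⟩, w3.2⟩
      · exact mem_iSup_prop.2 ⟨⟨k, rfl⟩, g.mem_top⟩
      · refine g.mono (le_trans ?_ (le_iSup (fun d : {d : C // d ∈ D ∧ In N d} =>
          fog E G τ' d.1) ⟨d, hdD, h9⟩)) w5'
        exact fog_mono hE _ inf_le_right
  refine g.mono ?_ hs'
  exact le_iSup₂_of_le (f := fun (s' : Sta A C N) (_ : ∃ l, m ≤ l ∧ t ++ [l] <+: s'.1) =>
    gdv E G lq N Y c s'.1 s'.2.1.1 s'.2.2.1.1 s'.2.2.2.1 ⊓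
      edv E G N n x y D s'.2.1.1 s'.2.2.1.1 ⊓ (MQ A).le s'.2.1.1 τ) s' ⟨l, hl, hnode⟩ le_rfl

omit hS in
/-- The end. -/
theorem fin_le {N : Set El.{u}} (hN : NP E G Nd lq N) (hamf : AmfA E G) (Y : ℕ → A) (c : C)
    (xs : ℕ → ℕ → C) (hxs : ∀ y, In N y → Sl y → ∃ n, y = xs n) (Ds : ℕ → Set C)
    (hDs : ∀ D, In N D → sSup D = ⊤ → ∃ n, D = Ds n)
    (hstep : ∀ n m, ∀ s : Sta A C N, gdv E G lq N Y c s.1 s.2.1.1 s.2.2.1.1 s.2.2.2.1 ≤
      ⨆ s' : Sta A C N, ⨆ _ : ∃ l, m ≤ l ∧ s.1 ++ [l] <+: s'.1,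
        gdv E G lq N Y c s'.1 s'.2.1.1 s'.2.2.1.1 s'.2.2.2.1 ⊓
        edv E G N n s.2.2.1.1 (xs n) (Ds n) s'.2.1.1 s'.2.2.1.1 ⊓ (MQ A).le s'.2.1.1 s.2.1.1)
    (s0 : Sta A C N) : gdv E G lq N Y c s0.1 s0.2.1.1 s0.2.2.1.1 s0.2.2.2.1 ≤
      prj E (gc N (fun n => E (Y n)) ⊓ c ⊓ dis s0.2.2.1.1 fun n => E (Y n)) := by
  have hE := H.ex.ce
  have := hN.cM
  have := hN.cz
  have := hN.cx
  have hcx : Countable {x : ℕ → C // In N x ∧ Sl x} := by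
    refine Function.Injective.countable (f := fun x : {x : ℕ → C // In N x ∧ Sl x} =>
      (⟨x.1, x.2.1⟩ : {x : ℕ → C // In N x})) ?_
    intro a b h
    have h2 := congrArg Subtype.val h
    exact Subtype.ext h2
  obtain ⟨p, hp, hae⟩ := hamf (fun _ => Sta A C N) (fun _ s => s.1) (fun _ s => s.2.1.1)
    (fun _ s => gdv E G lq N Y c s.1 s.2.1.1 s.2.2.1.1 s.2.2.2.1)
    (fun n s s' => edv E G N n s.2.2.1.1 (xs n) (Ds n) s'.2.1.1 s'.2.2.1.1)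
    (fun n s => inf_le_left.trans (inf_le_left.trans inf_le_right)) (fun n s m => hstep n m s)
    s0 _ le_rfl
  rw [← hp]
  refine prj_mono hE ?_
  -- consequences of the fusion
  have key : ∀ᶠ h in ae C, p ∈ h → ∃ ξ : ℕ → Sta A C N, ξ 0 = s0 ∧
      (∀ n, gdv E G lq N Y c (ξ n).1 (ξ n).2.1.1 (ξ n).2.2.1.1 (ξ n).2.2.2.1 ∈ h.pull hE) ∧
      (∀ n, G (ξ n).2.1.1 ∈ h) ∧
      (∀ n, ∃ k, (ξ (n + 1)).2.2.1.1 = adn (ξ n).2.2.1.1 (xs n) k) ∧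
      (∀ n, ∀ i ≤ n, fog E G (ξ (n + 1)).2.1.1 ((ξ (n + 1)).2.2.1.1 i) ∈ h.pull hE ∨
        fog E G (ξ (n + 1)).2.1.1 ((ξ (n + 1)).2.2.1.1 i)ᶜ ∈ h.pull hE) ∧
      (∀ n, (⨆ d : {d : C // d ∈ Ds n ∧ In N d}, fog E G (ξ (n + 1)).2.1.1 d.1) ∈ h.pull hE) := by
    filter_upwards [hae] with h hh hph
    obtain ⟨ξ, h0, h1⟩ := hh hph
    have h2 : ∀ n, edv E G N n (ξ n).2.2.1.1 (xs n) (Ds n) (ξ (n + 1)).2.1.1
        (ξ (n + 1)).2.2.1.1 ∈ h.pull hE := fun n => (h1 n).2.2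
    refine ⟨ξ, h0, fun n => (h1 n).1, fun n => (h1 n).2.1, fun n => ?_, fun n i hi => ?_,
      fun n => ?_⟩
    · have h3 := ((h.pull hE).mem_inf.1 ((h.pull hE).mem_inf.1 (h2 n)).1).1
      exact (mem_iSup_prop.1 h3).1
    · have h3 := ((h.pull hE).mem_inf.1 (h2 n)).2
      have h4 := (h.pull hE).mono (iInf_le (fun j : Fin (n + 1) =>
        (fog E G (ξ (n + 1)).2.1.1 ((ξ (n + 1)).2.2.1.1 j) ⊔
          fog E G (ξ (n + 1)).2.1.1 ((ξ (n + 1)).2.2.1.1 j)ᶜ)) ⟨i, Nat.lt_succ_of_le hi⟩) h3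
      exact (h.pull hE).mem_sup.1 h4
    · exact ((h.pull hE).mem_inf.1 ((h.pull hE).mem_inf.1 (h2 n)).1).2
  -- the slaloms avoid `Y`
  have key2 : ∀ (h : Ult C) (ξ : ℕ → Sta A C N),
      (∀ n, gdv E G lq N Y c (ξ n).1 (ξ n).2.1.1 (ξ n).2.2.1.1 (ξ n).2.2.2.1 ∈ h.pull hE) →
      (∀ n, G (ξ n).2.1.1 ∈ h) →
      (∀ n, ∃ k, (ξ (n + 1)).2.2.1.1 = adn (ξ n).2.2.1.1 (xs n) k) →
      (∀ n, ∀ i ≤ n, fog E G (ξ (n + 1)).2.1.1 ((ξ (n + 1)).2.2.1.1 i) ∈ h.pull hE ∨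
        fog E G (ξ (n + 1)).2.1.1 ((ξ (n + 1)).2.2.1.1 i)ᶜ ∈ h.pull hE) →
      ∀ n i, ¬ ((ξ n).2.2.1.1 i ∈ h ∧ E (Y i) ∈ h) := by
    rintro h ξ h1 h2 h3 h4 n i ⟨h5, h6⟩
    -- monotone
    have hmon : ∀ j, (ξ (n + j)).2.2.1.1 i ∈ h := by
      intro j
      induction j with
      | zero => exact h5
      | succ j ih =>
        obtain ⟨k, hk⟩ := h3 (n + j)
        have h7 : (ξ (n + (j + 1))).2.2.1.1 i = adn (ξ (n + j)).2.2.1.1 (xs (n + j)) k i := by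
          rw [← hk]
          rfl
        rw [h7]
        exact h.mono le_sup_left ih
    have h7 := hmon (i + 1)
    have h8 := h4 (n + i) i (Nat.le_add_left i n)
    have h9 := h1 (n + i + 1)
    have h10 := h2 (n + i + 1)
    rw [show n + (i + 1) = n + i + 1 from rfl] at h7
    obtain ⟨ζ, hζ⟩ : ∃ ζ, ζ = ξ (n + i + 1) := ⟨_, rfl⟩
    rw [← hζ] at h7 h8 h9 h10
    rw [mem_gdv] at h9
    obtain ⟨-, -, -, q1, q2⟩ := h9
    rcases h8 with h8 | h8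
    · have h11 : ζ.2.2.2.1 i ∈ h.pull hE :=
        (h.pull hE).mono (itp_pos hI H ζ.1 ζ.2.1.1 ζ.2.2.1.1 ζ.2.2.2.1 i)
          ((h.pull hE).mem_inf.2 ⟨h8, q1⟩)
      have h12 : Y i ∈ h.pull hE := h6
      have h13 : dis ζ.2.2.2.1 Y ≤ (ζ.2.2.2.1 i ⊓ Y i)ᶜ := by
        have h14 : dis ζ.2.2.2.1 Y ≤ (ζ.2.2.2.1 (Nat.pair i.unpair.1 i.unpair.2) ⊓
            Y (Nat.pair i.unpair.1 i.unpair.2))ᶜ :=
          (iInf_le _ i.unpair.1).trans ((iInf_le _ (Nat.zero_le _)).trans (iInf_le _ i.unpair.2))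
        rwa [Nat.pair_unpair] at h14
      have h14 := (h.pull hE).mono h13 q2
      exact (h.pull hE).mem_compl.1 h14 ((h.pull hE).mem_inf.2 ⟨h11, h12⟩)
    · have h11 : E (fog E G ζ.2.1.1 (ζ.2.2.1.1 i)ᶜ) ⊓ G ζ.2.1.1 ≤ (ζ.2.2.1.1 i)ᶜ := by
        rw [← H.ex.fog_iff]
      have h12 := h.mono h11 (h.mem_inf.2 ⟨h8, h10⟩)
      exact h.mem_compl.1 h12 h7
  have adis : ∀ (x' : ℕ → C) (k : ℕ), ∀ᶠ h in ae C, disn k x' (fun n => E (Y n)) ∈ h ↔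
      ∀ q, k ≤ q → ∀ i, ¬ (x' (Nat.pair q i) ∈ h ∧ E (Y (Nat.pair q i)) ∈ h) :=
    fun x' k => ae_disn k x' fun n => E (Y n)
  refine le_inf (le_inf (le_inf (le_inf ?_ ?_) ?_) ?_) ?_
  · -- genericity
    refine le_iInf fun D => le_iInf fun hD => le_iInf fun hDt => ?_
    obtain ⟨n, hn⟩ := hDs D hD hDt
    apply le_of_ae
    filter_upwards [key] with h hh hph
    obtain ⟨ξ, -, -, h2, -, -, h5⟩ := hh hph
    have h6 : E (⨆ d : {d : C // d ∈ Ds n ∧ In N d}, fog E G (ξ (n + 1)).2.1.1 d.1) ⊓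
        G (ξ (n + 1)).2.1.1 ≤ ⨆ (d : C) (_ : d ∈ D) (_ : In N d), d := by
      rw [f_iSup hE, iSup_inf_eq]
      refine iSup_le fun d => ?_
      have h7 : E (fog E G (ξ (n + 1)).2.1.1 d.1) ⊓ G (ξ (n + 1)).2.1.1 ≤ d.1 := by
        rw [← H.ex.fog_iff]
      refine h7.trans ?_
      exact le_iSup_of_le d.1 (le_iSup_of_le (hn ▸ d.2.1) (le_iSup_of_le d.2.2 le_rfl))
    exact h.mono h6 (h.mem_inf.2 ⟨h5 n, h2 (n + 1)⟩)
  · -- cut points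
    apply le_of_ae
    filter_upwards [key, ae_pull hE (ae_cut Y), ae_cut fun n => E (Y n)] with h hh h1 h2 hph
    obtain ⟨ξ, -, h3, -⟩ := hh hph
    have h4 := (mem_gdv _).1 (h3 0)
    have h5 : cut Y ∈ h.pull hE := (h.pull hE).mono (gc_cut N Y) h4.1
    rw [h2]
    rw [h1] at h5
    exact h5
  · -- slaloms
    refine le_iInf fun y => le_iInf fun hy => le_iInf fun hsy => ?_
    obtain ⟨n, hn⟩ := hxs y hy hsy
    apply le_of_ae
    filter_upwards [key, ae_all fun k => adis y k, ae_iSup fun k => disn k y fun n => E (Y n)]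
      with h hh h1 h2 hph
    obtain ⟨ξ, -, h3, h4, h5, h6, -⟩ := hh hph
    rw [h2]
    obtain ⟨k, hk⟩ := h5 n
    refine ⟨k, ?_⟩
    rw [h1]
    rintro q hq i ⟨h7, h8⟩
    refine key2 h ξ h3 h4 h5 h6 (n + 1) (Nat.pair q i) ⟨?_, h8⟩
    rw [hk, ← hn]
    refine h.mono ?_ h7
    refine le_sup_of_le_right (le_iSup_of_le ?_ le_rfl)
    rw [Nat.unpair_pair]
    exact hq
  · -- the condition
    apply le_of_ae
    filter_upwards [key] with h hh hph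
    obtain ⟨ξ, -, h3, h4, -⟩ := hh hph
    have h5 : E (fog E G (ξ 0).2.1.1 c) ⊓ G (ξ 0).2.1.1 ≤ c := by rw [← H.ex.fog_iff]
    exact h.mono h5 (h.mem_inf.2 ⟨((mem_gdv _).1 (h3 0)).2.1, h4 0⟩)
  · -- the slalom of the state
    apply le_of_ae
    filter_upwards [key, adis s0.2.2.1.1 0] with h hh h1 hph
    obtain ⟨ξ, h0, h3, h4, h5, h6, -⟩ := hh hph
    show disn 0 s0.2.2.1.1 (fun n => E (Y n)) ∈ h
    rw [h1]
    rintro q - i h7
    have h8 := key2 h ξ h3 h4 h5 h6 0 (Nat.pair q i)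
    rw [h0] at h8
    exact h8 h7

theorem pres (hseq : SeqStatement.{u}) (hamf : AmfA E G) : PRES E := by
  filter_upwards [np hseq E G Nd lq] with N hN Y c x z hc hx hsx hz
  -- enumerations
  have hcx : Countable {x : ℕ → C // In N x ∧ Sl x} := by
    have := hN.cx
    refine Function.Injective.countable (f := fun x : {x : ℕ → C // In N x ∧ Sl x} =>
      (⟨x.1, x.2.1⟩ : {x : ℕ → C // In N x})) ?_
    intro a b h
    have h2 := congrArg Subtype.val h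
    exact Subtype.ext h2
  have hcD : Countable {D : Set C // In N D ∧ sSup D = ⊤} := by
    have := hN.cD
    refine Function.Injective.countable (f := fun x : {D : Set C // In N D ∧ sSup D = ⊤} =>
      (⟨x.1, x.2.1⟩ : {D : Set C // In N D})) ?_
    intro a b h
    have h2 := congrArg Subtype.val h
    exact Subtype.ext h2
  have : Nonempty {x : ℕ → C // In N x ∧ Sl x} := ⟨⟨x, hx, hsx⟩⟩
  have : Nonempty {D : Set C // In N D ∧ sSup D = ⊤} := ⟨⟨Set.univ, hN.un, sSup_univ⟩⟩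
  obtain ⟨xs, hxs⟩ := exists_surjective_nat {x : ℕ → C // In N x ∧ Sl x}
  obtain ⟨Ds, hDs⟩ := exists_surjective_nat {D : Set C // In N D ∧ sSup D = ⊤}
  refine (root hI H hN Y c x z hc hx hsx hz).trans (iSup_le fun s => ?_)
  obtain ⟨t, ⟨τ, hτ⟩, ⟨z', hz'⟩⟩ := s
  refine fin_le hI H hN hamf Y c (fun n => (xs n).1) ?_ (fun n => (Ds n).1) ?_ ?_
    (t, ⟨τ, hτ⟩, ⟨x, hx, hsx⟩, ⟨z', hz'⟩)
  · intro y hy hsy
    obtain ⟨n, hn⟩ := hxs ⟨y, hy, hsy⟩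
    exact ⟨n, by rw [hn]⟩
  · intro D hD hDt
    obtain ⟨n, hn⟩ := hDs ⟨D, hD, hDt⟩
    exact ⟨n, by rw [hn]⟩
  · intro n m s
    exact step hS hI H hN Y c n m (xs n).1 (xs n).2.1 (xs n).2.2 (Ds n).1 (Ds n).2.1 (Ds n).2.2 s

end main

end

/-- Module PRMIL: Miller forcing preserves good sets. -/
theorem prmil (hDe : DensStatement.{u}) (hseq : SeqStatement.{u}) (hamf : AmfStatement.{u, u})
    (hI : ItpStatement.{u}) (hS : SlaStatement.{u}) (hM : MxfStatement.{u})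
    (hND : NdStatement.{u}) (hL : LpStatement.{u}) : PrmilStatement.{u} := by
  intro A _
  exact pres hS hI (mext2 hND hM hL hDe A) hseq (amfA hamf A)

end Pool.Agent.Lib.MP_6d445e_gt.H23
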